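import Mathlib
import Pool.Agent.helper11.PL.Defs
import Pool.Agent.helper11.PL.Fin

/-! # MP_6d3f27_nt: for almost all pairs the set `χ(a, b)` is large

`PL.F a b` is the `(a, b)`-Fibonacci sequence, `PL.per p a b` its Pisano period modulo `p`,
`PL.lam p e a b` the number `λ_e`, `PL.kval p a b = λ_1 - λ_{-1} - λ_0` and `PL.chi a b` the set
`χ(a, b)` of the values `PL.kval p a b` for odd primes `p` (see `Pool.Agent.helper11.PL.Defs`).

On every line `{(a0 + t u, b0 + t v) : t ∈ ℤ}` which does not pass through the origin and for every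
`K`, the parameters `t` with `|χ(a0 + t u, b0 + t v)| ≤ K` have natural density `0`. -/

namespace Pool.Agent.Results.MP_6d3f27_nt.AlmostAllPairs

open Filter

/-- Main theorem. -/
theorem result (a0 b0 u v : ℤ) (hD : a0 * v - b0 * u ≠ 0) (K : ℕ) :
    Tendsto (fun N : ℕ =>
      (Nat.card {t : ℤ // |t| ≤ N ∧ (PL.chi (a0 + t * u) (b0 + t * v)).encard ≤ K} : ℝ) /
        (2 * N + 1)) atTop (nhds 0) := by
  rw [Metric.tendsto_atTop]
  intro ε hε
  obtain ⟨N0, hN0⟩ := PL.many a0 b0 u v hD K (ε / 2) (half_pos hε)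
  refine ⟨N0, fun N hN => ?_⟩
  have h := hN0 N hN
  have hpos : (0 : ℝ) < 2 * N + 1 := by positivity
  rw [Real.dist_eq, sub_zero, abs_of_nonneg (by positivity), div_lt_iff₀ hpos]
  calc _ ≤ ε / 2 * (2 * (N : ℝ) + 1) := h
    _ < ε * (2 * N + 1) := by nlinarith

end Pool.Agent.Results.MP_6d3f27_nt.AlmostAllPairs
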